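import Pool.Agent.X232.SF.Final

/-!
# A non-sofic monoid whose identity `𝒥`-class is a residually finite group
-/

set_option autoImplicit false

namespace Pool.Agent.Results.MP_6d1796_al.NonSofic

open Pool.Agent.X232.SF

/-- There is a monoid `M` such that the `𝒥`-class of `1` is the group of units, this group is
residually finite (so it is sofic), and `M` is not sofic. -/
theorem result : ∃ (M : Type) (_ : Monoid M), JOneIsGroup M ∧ RF Mˣ ∧ Sofic Mˣ ∧ ¬ Sofic M :=
  ⟨Pt true HC, inferInstance, jOne, rf_units true, (rf_units true).sofic, not_sofic_conc⟩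

end Pool.Agent.Results.MP_6d1796_al.NonSofic
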